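import Mathlib
import Pool.Agent.RamCay384.General

/-!
MP_5dd17b_co, partial answer: Alon's conjecture for all finite abelian groups `G` which have a
generating set of `O(sqrt(log |G|))` elements.
-/

namespace Pool.Agent.Results.MP_5dd17b_co.AbelianFewGenerators

/-- The Cayley graph `Cay(G, S)`: `g` and `h` are adjacent exactly when `g⁻¹ h ∈ S`. -/
def Cay {G : Type} [Group G] (S : Set G) (h1 : (1 : G) ∉ S) (hinv : ∀ x, x ∈ S → x⁻¹ ∈ S) :
    SimpleGraph G where
  Adj g h := g⁻¹ * h ∈ S
  symm := ⟨fun g h H => by have := hinv _ H; rwa [mul_inv_rev, inv_inv] at this⟩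
  loopless := ⟨fun g H => h1 (by rwa [inv_mul_cancel] at H)⟩

/-- There is an absolute constant `C` such that every nontrivial finite abelian group `G` with a
generating set `T` has a Cayley graph all of whose cliques and independent sets have at most
`C (|T|² + log₂ |G|)` vertices. -/
theorem result : ∃ C : ℝ, ∀ (G : Type) [CommGroup G] [Fintype G], Nontrivial G →
    ∀ T : Finset G, Subgroup.closure (T : Set G) = ⊤ →
    ∃ (S : Set G) (h1 : (1 : G) ∉ S) (hinv : ∀ x, x ∈ S → x⁻¹ ∈ S),
      ∀ A : Finset G, ((Cay S h1 hinv).IsClique A ∨ (Cay S h1 hinv).IsIndepSet A) →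
        (A.card : ℝ) ≤ C * ((T.card : ℝ) ^ 2 + Real.logb 2 (Fintype.card G)) := by
  refine ⟨2 ^ 48, fun G _ _ hG T hT => ?_⟩
  classical
  have : Nontrivial (Additive G) := hG
  let t : Fin T.card → G := fun i => (T.equivFin.symm i : G)
  let π : (Fin T.card → ℤ) →+ Additive G :=
    { toFun := fun x => ∑ i, x i • Additive.ofMul (t i)
      map_zero' := by simp
      map_add' := by
        intro x y
        simp only [Pi.add_apply, add_smul, Finset.sum_add_distrib] }
  have hπ : Function.Surjective π := by
    have h1 : (⊤ : AddSubgroup (Additive G)) ≤ π.range := by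
      have h2 : Subgroup.closure (T : Set G) ≤ AddSubgroup.toSubgroup' π.range := by
        rw [Subgroup.closure_le]
        intro g hg
        change Additive.ofMul g ∈ π.range
        refine ⟨Pi.single (T.equivFin ⟨g, hg⟩) 1, ?_⟩
        change ∑ i, (Pi.single (T.equivFin ⟨g, hg⟩) (1 : ℤ) : Fin T.card → ℤ) i •
          Additive.ofMul (t i) = Additive.ofMul g
        rw [Finset.sum_eq_single (T.equivFin ⟨g, hg⟩)]
        · simp [t]
        · intro i _ hi
          rw [Pi.single_eq_of_ne hi, zero_smul]
        · intro h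
          exact absurd (Finset.mem_univ _) h
      rw [hT] at h2
      intro g _
      exact h2 (Subgroup.mem_top (Additive.toMul g))
    intro g
    exact h1 (AddSubgroup.mem_top g)
  obtain ⟨S, h0, hneg, hc, hi⟩ := RamCay384.exists_cayley_log π hπ
  have hcard : (Nat.card (Additive G)) = Fintype.card G := by
    rw [Nat.card_congr Additive.toMul, Nat.card_eq_fintype_card]
  rw [hcard] at hc hi
  refine ⟨{g | Additive.ofMul g ∈ S}, h0, fun x hx => hneg _ hx, ?_⟩
  have hsub : ∀ x y : Additive G, y - x = Additive.ofMul ((Additive.toMul x)⁻¹ * Additive.toMul y) := by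
    intro x y
    rw [sub_eq_add_neg, add_comm]
    rfl
  rintro A (hA | hA)
  · have := hc (A.map Additive.ofMul.toEmbedding) (by
      intro x hx y hy hxy
      obtain ⟨a, ha, rfl⟩ := Finset.mem_map.mp hx
      obtain ⟨b, hb, rfl⟩ := Finset.mem_map.mp hy
      have hab : a ≠ b := fun h => hxy (by rw [h])
      rw [hsub]
      exact hA (Finset.mem_coe.mpr ha) (Finset.mem_coe.mpr hb) hab)
    rwa [Finset.card_map] at this
  · have := hi (A.map Additive.ofMul.toEmbedding) (by
      intro x hx y hy hxy
      obtain ⟨a, ha, rfl⟩ := Finset.mem_map.mp hx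
      obtain ⟨b, hb, rfl⟩ := Finset.mem_map.mp hy
      have hab : a ≠ b := fun h => hxy (by rw [h])
      rw [hsub]
      exact hA (Finset.mem_coe.mpr ha) (Finset.mem_coe.mpr hb) hab)
    rwa [Finset.card_map] at this

end Pool.Agent.Results.MP_5dd17b_co.AbelianFewGenerators
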